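import Pool.Agent.Helper81.UR2.Hyp
import Pool.Agent.Helper81.UR2.Sim
import Pool.Agent.Helper66.UR2.SIZ
import Pool.Agent.Helper88.UR2.SCH

/-!
# Cell machines as machines with a memory of blocks: completeness (project UR2, MP_c578c8_lc)
-/

set_option autoImplicit false

namespace Pool.Agent.Helper92.UR2

open Pool.Agent.Helper65.LinSpace Pool.Agent.Helper78.Mpc Finset
open Pool.Agent.Helper65.BR (BM)
open Pool.Agent.Helper81.RP (wd num_wd length_wd_le)
open Pool.Agent.Helper53.UV (CM)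
open Pool.Agent.Helper81.UR2

theorem par_pos (s h k D o o' : ℕ) : 0 < par s h k D o o' :=
  lt_of_lt_of_le (Nat.two_pow_pos (2 * s + 2)) (Nat.left_le_pair _ _)

theorem bits_len {n s : ℕ} (h : n < 2 ^ s) : n.bits.length ≤ s := by
  rw [Nat.size_eq_bits_len]
  exact Nat.size_le.2 h

theorem len_mw {π h D : ℕ} (hQ : pQ π = 2 ^ h) (hD : pD π = D) {m : ℕ → ℕ}
    (hm : ∀ z, m z < 2 ^ h) (u : List Bool) : (mw π m u).length ≤ D * h := by
  unfold mw
  refine length_wd_le (Nat.succ_pos _) ?_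
  have h1 : cB π (num u / 2 - 1) m < pQ π ^ pD π :=
    tab_lt fun r _ => sh_lt (by rw [hQ]; exact Nat.two_pow_pos _) (fun z => by rw [hQ]; exact hm z) _
  rw [hQ, hD, ← pow_mul] at h1
  rw [pow_succ, mul_comm D h]
  omega

theorem len_blk {c m : ℕ} (h : c < 2 ^ m) : (wd (2 * (c + 1) + 1)).length ≤ m + 1 := by
  refine length_wd_le (Nat.succ_pos _) ?_
  rw [pow_succ, pow_succ]
  omega

/-- **CMP.** -/
theorem gCMP : GoalCMP := by
  intro hCNF hBLK hSCH hSIZ M
  obtain ⟨K0, hS⟩ := hSIZ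
  refine ⟨K0 + 16, ?_⟩
  intro w y D o o' r s m h k hD hacc hr hw ho hfit
  have hf0 := hfit 0 (Nat.zero_le _)
  have hDs : D < 2 ^ s := by
    have := hf0.2.2.1
    omega
  have ho' : o' < 2 ^ s := by
    have := hf0.2.2.1
    omega
  obtain ⟨hπ, hlen, hst⟩ := hS M s h k D o o' hD hDs ho ho'
  have eK : pK (par s h k D o o') = 2 ^ s := pK_prm _ _ _ _ _ _ _ _
  have eQ : pQ (par s h k D o o') = 2 ^ h := pQ_prm _ _ _ _ _ _ _ _
  have eD : pD (par s h k D o o') = D := pD_prm _ _ _ _ _ _ _ _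
  have e1 : po1 (par s h k D o o') = o := po1_prm _ _ _ _ _ _ _ _
  have e2 : po2 (par s h k D o o') = o' := po2_prm _ _ _ _ _ _ _ _
  have eJ : pJ (par s h k D o o') = 2 ^ k := pJ_prm _ _ _ _ _ _ _ _
  have hnum : num (wd (par s h k D o o')) = par s h k D o o' := num_wd (par_pos _ _ _ _ _ _)
  generalize par s h k D o o' = π at *
  classical
  have hex : ∃ t, M.acc (ka M w y t) ≠ 0 := ⟨r, hacc⟩
  obtain ⟨T, hT, hTa, hmin⟩ : ∃ T ≤ r, M.acc (ka M w y T) ≠ 0 ∧ ∀ t < T, M.acc (ka M w y t) = 0 :=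
    ⟨Nat.find hex, Nat.find_min' hex hacc, Nat.find_spec hex, fun t ht =>
      not_not.1 fun hc => Nat.find_min hex ht hc⟩
  have hE := hyp (M := M) (w := w) (y := y) (π := π) hπ (by rw [eJ]; exact hr) hT hTa hmin
    (fun t ht => by rw [eK]; exact (hfit t ht).1) (fun t ht z => by
      rw [eQ]; exact (hfit t ht).2.2.2.2 z)
  obtain ⟨R', hR1, hR2, hR3⟩ := hSCH (pD π) T (Bt M w y π) (Vt M w y π) (En M w y π) (ka M w y) hE
  have hq : ∀ j ≤ R', (qj M w y π j).1 ≤ T ∧ (qj M w y π j).2.2.1 ≤ pD π ∧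
      (∃ t' ≤ T, (qj M w y π j).2.1 = Vt M w y π t') ∧ ((qj M w y π j).2.2.2 = 0 ∨
        ∃ t' ≤ T, (qj M w y π j).2.2.2 = ka M w y t' + 1) := hR2
  have hqT : (qj M w y π R').1 = T := hR1
  obtain ⟨hC0, hC1⟩ := hCNF M w y (wd π) (by rw [hnum]; exact hπ)
  rw [hnum] at hC0 hC1
  have hK0 : ∀ t ≤ r, ka M w y t < 2 ^ s := fun t ht => (hfit t ht).1
  have hVt : ∀ t ≤ r, Vt M w y π t * D ≤ M.adr (ka M w y t) + o' := fun t _ => by
    unfold Vt ab
    rw [eD, e2]
    exact Nat.div_mul_le_self _ _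
  have hVs : ∀ t ≤ r, Vt M w y π t < 2 ^ s := fun t ht => by
    have h1 := hVt t ht
    have h2 : Vt M w y π t ≤ Vt M w y π t * D := Nat.le_mul_of_pos_right _ hD
    have h3 : M.adr (ka M w y t) + o' + D < 2 ^ s := (hfit t ht).2.2.1
    omega
  -- the bounds of the states
  have hbd : ∀ j ≤ R', (qj M w y π j).2.1 < 2 ^ s ∧ (qj M w y π j).2.2.1 ≤ D ∧
      win M w y π (qj M w y π j).2.1 (qj M w y π j).2.2.1 < 16 ^ D ∧
      (qj M w y π j).2.2.2 ≤ 2 ^ s ∧ ka M w y (qj M w y π j).1 < 2 ^ s := by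
    intro j hj
    obtain ⟨h1, h2, ⟨t', ht', h3⟩, h4⟩ := hq j hj
    refine ⟨?_, by rw [← eD]; exact h2, ?_, ?_, hK0 _ (h1.trans hT)⟩
    · rw [h3]
      exact hVs _ (ht'.trans hT)
    · have h5 := win_lt (M := M) (π := π) w y (qj M w y π j).2.1 (qj M w y π j).2.2.1
      rw [eD] at h5
      exact h5
    · rcases h4 with h4 | ⟨t'', ht'', h4⟩
      · rw [h4]
        exact Nat.zero_le _
      · rw [h4]
        exact hK0 _ (ht''.trans hT)
  have hS1 : 1 ≤ D * (h + 1) := Nat.mul_pos hD (Nat.succ_pos h)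
  have hSz : ∀ a, a ≤ K0 * (D * (h + 1) + s + k) → a ≤ (K0 + 16) * (D * (h + 1) + s + k) :=
    fun a ha => ha.trans (Nat.mul_le_mul_right _ (Nat.le_add_right _ _))
  have hs1 : ∀ a, a ≤ D * (h + 1) + s + k → a ≤ (K0 + 16) * (D * (h + 1) + s + k) :=
    fun a ha => ha.trans (Nat.le_mul_of_pos_left _ (by omega))
  have hDh : D * h ≤ D * (h + 1) := Nat.mul_le_mul_left _ (Nat.le_succ _)
  -- the bounds
  have hA0 : ∀ t ≤ w.length, (((mach M).conf w y (wd π) t).1.length ≤
        (K0 + 16) * (D * (h + 1) + s + k) ∧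
      ((mach M).addr ((mach M).conf w y (wd π) t).1).length ≤
        (K0 + 16) * (D * (h + 1) + s + k) ∧
      (mach M).blk ((mach M).conf w y (wd π) t).1 = [] ∧
      ∀ x : List Bool, (((mach M).conf w y (wd π) t).2 x).length ≤
        (K0 + 16) * (D * (h + 1) + s + k)) := by
    intro t ht
    rw [hC0 t ht]
    obtain ⟨-, b2, b3⟩ := hBLK M π 0 t 0 0 0 0 0 hπ
    refine ⟨hSz _ (hst 0 t 0 0 0 0 0 (by omega) (by omega) (Nat.two_pow_pos _) (by omega)
      (by positivity) (by omega) (Nat.two_pow_pos _)).1, ?_, ?_, ?_⟩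
    · dsimp only
      rw [b2, if_pos rfl]
      refine hs1 _ ((bits_len (s := s) (by omega)).trans (by omega))
    · dsimp only
      rw [b3, if_neg fun hc => hc.1 rfl]
    · intro x
      dsimp only
      refine hs1 _ ((len_mw eQ eD (fun z => Nat.two_pow_pos _) x).trans (by omega))
  have hA1 : ∀ j ≤ R', (((mach M).conf w y (wd π) (w.length + 1 + j)).1.length ≤
        (K0 + 16) * (D * (h + 1) + s + k) ∧
      ((mach M).addr ((mach M).conf w y (wd π) (w.length + 1 + j)).1).length ≤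
        (K0 + 16) * (D * (h + 1) + s + k) ∧
      ((mach M).blk ((mach M).conf w y (wd π) (w.length + 1 + j)).1).length ≤ m + (K0 + 16) ∧
      ∀ x : List Bool, (((mach M).conf w y (wd π) (w.length + 1 + j)).2 x).length ≤
        (K0 + 16) * (D * (h + 1) + s + k)) := by
    intro j hj
    rw [hC1 j]
    obtain ⟨c1, c2, c3, c4, c5⟩ := hbd j hj
    obtain ⟨h1, h2, ⟨t', ht', h3⟩, h4⟩ := hq j hj
    obtain ⟨-, b2, b3⟩ := hBLK M π 1 w.length (qj M w y π j).2.1 (qj M w y π j).2.2.1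
      (win M w y π (qj M w y π j).2.1 (qj M w y π j).2.2.1) (qj M w y π j).2.2.2
      (ka M w y (qj M w y π j).1) hπ
    refine ⟨hSz _ (hst 1 w.length _ _ _ _ _ le_rfl hw c1 c2 c3 c4 c5).1, ?_, ?_, ?_⟩
    · dsimp only
      rw [b2, if_neg one_ne_zero]
      refine hs1 _ ((bits_len (s := s) ?_).trans (by omega))
      refine (hfit t' (ht'.trans hT)).2.2.2.1 _ ?_
      rw [h3, eD, e2]
      have h5 : Vt M w y π t' * D ≤ M.adr (M.conf w y t').1 + o' := hVt t' (ht'.trans hT)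
      omega
    · dsimp only
      rw [b3]
      split_ifs with hc
      · refine (len_blk (m := m) ?_).trans (by omega)
        have h5 : M.cel (ka M w y (qj M w y π j).1) + o < 2 ^ m := (hfit _ (h1.trans hT)).2.1
        unfold cb
        rw [e1, eD]
        exact (Nat.div_le_self _ _).trans_lt h5
      · exact Nat.zero_le _
    · intro x
      dsimp only
      refine hs1 _ ((len_mw eQ eD (fun z => (hfit _ (h1.trans hT)).2.2.2.2 z) x).trans (by omega))
  -- the heads of the blocks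
  have hB1 : ∀ j ≤ R', ((mach M).blk ((mach M).conf w y (wd π) (w.length + 1 + j)).1).head? =
      some true → pD π ≤ (qj M w y π j).2.2.1 ∧
        (qj M w y π j).2.1 = Vt M w y π (qj M w y π j).1 := by
    intro j hj hh
    rw [hC1 j] at hh
    obtain ⟨-, b2, b3⟩ := hBLK M π 1 w.length (qj M w y π j).2.1 (qj M w y π j).2.2.1
      (win M w y π (qj M w y π j).2.1 (qj M w y π j).2.2.1) (qj M w y π j).2.2.2
      (ka M w y (qj M w y π j).1) hπ
    dsimp only at hh
    rw [b3] at hh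
    split_ifs at hh with hc
    · exact ⟨hc.2.1, hc.2.2⟩
    · exact absurd hh (by simp)
  have hcase : ∀ t < w.length + 1 + R', ((mach M).blk ((mach M).conf w y (wd π) t).1).head? =
      some true → ∃ j < R', t = w.length + 1 + j ∧ pD π ≤ (qj M w y π j).2.2.1 ∧
        (qj M w y π j).2.1 = Vt M w y π (qj M w y π j).1 := by
    intro t ht hh
    rcases Nat.lt_or_ge w.length t with h1 | h1
    · obtain ⟨j, rfl⟩ : ∃ j, t = w.length + 1 + j := ⟨t - (w.length + 1), by omega⟩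
      exact ⟨j, by omega, rfl, hB1 j (by omega) hh⟩
    · rw [(hA0 t h1).2.2.1] at hh
      exact absurd hh (by simp)
  refine ⟨wd π, w.length + 1 + R', 4 * s + 6, ?_, hSz _ hlen, ?_, ?_, ?_, ?_⟩
  · show ((mach M).conf w y (wd π) (w.length + 1 + R')).1.head? = some true
    rw [hC1 R']
    exact (hBLK M π 1 w.length _ _ _ _ _ hπ).1.2 ⟨one_ne_zero, by rw [hqT]; exact hTa⟩
  · intro t ht
    rcases Nat.lt_or_ge w.length t with h1 | h1
    · obtain ⟨j, rfl⟩ : ∃ j, t = w.length + 1 + j := ⟨t - (w.length + 1), by omega⟩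
      obtain ⟨a1, a2, a3, a4⟩ := hA1 j (by omega)
      exact ⟨a1, a2, a3, fun x _ => a4 x⟩
    · obtain ⟨a1, a2, a3, a4⟩ := hA0 t h1
      exact ⟨a1, a2, by rw [a3]; exact Nat.zero_le _, fun x _ => a4 x⟩
  · nlinarith
  · intro t ht hh
    obtain ⟨j, hj, rfl, hd1, hd2⟩ := hcase t ht hh
    have hq1 : qj M w y π (j + 1) = sch (pD π) (Vt M w y π) (En M w y π) (ka M w y)
        (qj M w y π j) := Function.iterate_succ_apply' _ _ _
    have hq2 : sch (pD π) (Vt M w y π) (En M w y π) (ka M w y) (qj M w y π j) =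
        (En M w y π (qj M w y π j).1, (qj M w y π j).2.1, (qj M w y π j).2.2.1,
          ka M w y (qj M w y π j).1 + 1) := by
      unfold sch
      rw [if_neg (Nat.not_lt.2 hd1), if_neg (fun hc => hc hd2)]
    obtain ⟨c1, c2, c3, c4, c5⟩ := hbd j hj.le
    obtain ⟨d1, d2, d3, d4, d5⟩ := hbd (j + 1) hj
    have e3 : (mach M).conf w y (wd π) (w.length + 1 + j + 1) = _ := hC1 (j + 1)
    rw [e3, hC1 j]
    dsimp only
    rw [(hst 1 w.length _ _ _ _ _ le_rfl hw c1 c2 c3 c4 c5).2,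
      (hst 1 w.length _ _ _ _ _ le_rfl hw d1 d2 d3 d4 d5).2, hq1, hq2]
  · have k1 : (mach M).reads w y (wd π) (w.length + 1 + R') ≤
        (rds (pD π) (Vt M w y π) (En M w y π) (ka M w y) R').card := by
      unfold BM.reads
      have hsub : {t : ℕ | t < w.length + 1 + R' ∧
          ((mach M).blk ((mach M).conf w y (wd π) t).1).head? = some true} ⊆
          ↑((rds (pD π) (Vt M w y π) (En M w y π) (ka M w y) R').image
            fun j => w.length + 1 + j) := by
        rintro t ⟨ht, hh⟩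
        obtain ⟨j, hj, rfl, hd1, hd2⟩ := hcase t ht hh
        exact Finset.mem_coe.2 (Finset.mem_image.2 ⟨j, Finset.mem_filter.2
          ⟨Finset.mem_range.2 hj, hd1, hd2⟩, rfl⟩)
      refine (Set.ncard_le_ncard hsub (Finset.finite_toSet _)).trans ?_
      rw [Set.ncard_coe_finset]
      exact Finset.card_image_le
    have k2 : ((range T).filter fun t => Bt M w y π (t + 1) ≠ Bt M w y π t ∨
        Vt M w y π (t + 1) ≠ Vt M w y π t).card ≤ M.chg w y D o o' r := by
      unfold CM.chg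
      rw [← Set.ncard_coe_finset]
      refine Set.ncard_le_ncard ?_ ((Set.finite_Iio r).subset fun t ht => ht.1)
      intro t ht
      obtain ⟨h1, h2⟩ := Finset.mem_filter.1 (Finset.mem_coe.1 ht)
      have h3 := Finset.mem_range.1 h1
      refine ⟨by omega, ?_⟩
      unfold Bt Vt cb ab at h2
      rw [e1, e2, eD] at h2
      exact h2
    have k3 := k1.trans (hR3.trans (Nat.add_le_add_right k2 1))
    exact k3.trans (Nat.le_mul_of_pos_left _ (by omega))

/-- The completeness of the machines with a memory of blocks. -/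
theorem comp (M : CM) : ∃ K : ℕ, Pool.Agent.Helper31.UV.CompK M (mach M) K :=
  gCMP gCNF gBLK Pool.Agent.Helper88.UR2.gSCH Pool.Agent.Helper66.UR2.gSIZ M

/-- **CMB.** -/
theorem gCMB : Pool.Agent.Helper53.UV.GoalCMB :=
  Pool.Agent.Helper31.UV.cmb_of fun M =>
    let ⟨K, hK⟩ := comp M
    ⟨mach M, K, sound M, hK⟩

end Pool.Agent.Helper92.UR2
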